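import Pool.Agent.H45.SN.Fin

set_option autoImplicit false

/-! Q1 for every `n`: among all simple `n`-gons of given area the regular one maximises the first nonzero
Steklov eigenvalue. Definitions in `Pool.Agent.H45.SN.Defs`: `Simple`, `Region`, `sigP`, `reg`, `regR`. -/

open MeasureTheory

namespace Pool.Agent.Results.MP_8ce180_an.RegularPolygonArea

open Pool.Agent.H45.SN

/-- Let `n ≥ 3`. The regular `n`-gon is a simple polygon with region `regR n`, and for every simple
polygon `p` with `n` vertices (convex or not) and the region `Ω` enclosed by it,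
`σ₁(Ω) |Ω|^(1/2) ≤ σ₁(R_n) |R_n|^(1/2)`. -/
theorem result (n : ℕ) [NeZero n] (hn : 3 ≤ n) :
    Simple (reg n) ∧ Region (reg n) (regR n) ∧
    ∀ (p : ZMod n → ℂ) (Ω : Set ℂ), Simple p → Region p Ω →
      sigP p Ω * √(volume Ω).toReal ≤ sigP (reg n) (regR n) * √(volume (regR n)).toReal :=
  final hn

end Pool.Agent.Results.MP_8ce180_an.RegularPolygonArea
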