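import Mathlib
import Pool.Agent.H32.Q4.Mn

set_option autoImplicit false

/-! Q2 for `n = 4`: among quadrilaterals (convex or not) of given perimeter the square, and only
it, maximises the first nonzero Steklov eigenvalue. -/

namespace Pool.Agent.Results.MP_8ce180_an.SquarePerimeter

open Pool.Agent.H32.Q4

/-- Let `ABCD` be a quadrilateral, labelled so that the diagonal `AC` is inside (`B` and `D` are
strictly on different sides of the line `AC`), and let `PQRS` be a square. Then
`sigma1 * perimeter` of `ABCD` is at most that of `PQRS`, with equality only if `ABCD` is a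
square. -/
theorem result (A B C D P Q R S : ℂ) (hABCD : Cut A B C D) (hPQRS : IsSq P Q R S) :
    sigma4 A B C D * perim4 A B C D ≤ sigma4 P Q R S * perim4 P Q R S ∧
      (sigma4 A B C D * perim4 A B C D = sigma4 P Q R S * perim4 P Q R S → IsSq A B C D) :=
  perimeter4_main hABCD hPQRS

end Pool.Agent.Results.MP_8ce180_an.SquarePerimeter
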