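import Mathlib
import Pool.Agent.H32.Stek.Main

set_option autoImplicit false

/-! Q2 for `n = 3`: among triangles of given perimeter the equilateral one, and only it,
maximises the first nonzero Steklov eigenvalue. -/

namespace Pool.Agent.Results.MP_8ce180_an.TrianglePerimeter

open Pool.Agent.H32.Stek

/-- Let `PQR` be a nondegenerate triangle and `ABC` an equilateral triangle. Then
`sigma1 * perimeter` of `PQR` is at most that of `ABC`, with equality only if `PQR` is
equilateral. -/
theorem result (P Q R A B C : ℂ) (hPQR : AffineIndependent ℝ ![P, Q, R])
    (hABC : dist A B = dist B C ∧ dist B C = dist C A ∧ A ≠ B) :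
    sigma1 P Q R * perim P Q R ≤ sigma1 A B C * perim A B C ∧
      (sigma1 P Q R * perim P Q R = sigma1 A B C * perim A B C →
        dist P Q = dist Q R ∧ dist Q R = dist R P) :=
  perimeter_main hPQR hABC

end Pool.Agent.Results.MP_8ce180_an.TrianglePerimeter
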